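import Pool.Agent.Lib.MP_8dd27d_al.Example

set_option autoImplicit false

universe u

namespace Pool.Agent.Retired.MP_8dd27d_al.UKnotGQ

open MvPolynomial Pool.Agent.Lib.MP_8dd27d_al

/-- For a field `K` and a non-square `d`, the algebra `K[x, y] ⧸ (x y, y ^ 2 + d x ^ 2)` is
universally Koszul and not G-quadratic. -/
theorem result (K : Type u) [Field K] (d : K) (hd : ¬ IsSquare d) :
    UniversallyKoszul
      (Ideal.span {X 0 * X 1, X 1 ^ 2 + C d * X 0 ^ 2} : Ideal (MvPolynomial (Fin 2) K)) ∧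
    ¬ GQuadratic
      (Ideal.span {X 0 * X 1, X 1 ^ 2 + C d * X 0 ^ 2} : Ideal (MvPolynomial (Fin 2) K)) :=
  ⟨uk d (by rintro rfl; exact hd ⟨0, by simp⟩), not_gq d hd⟩

end Pool.Agent.Retired.MP_8dd27d_al.UKnotGQ
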